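import Pool.Agent.H91.TC.Basic

/-! Row NTB of the board tsc: the sum over the denominators. -/

set_option autoImplicit false

namespace Pool.Agent.H78.TSC

open Pool.Agent.H88.CL Pool.Agent.H88.CM Pool.Agent.H91.TC

theorem fiber_card (m b : ℕ) :
    ((Finset.Ioo 0 m).filter fun l => m / Nat.gcd l m = b).card ≤ b - 1 := by
  have h0 : (Finset.Ioo 0 b).card = b - 1 := by simp
  rw [← h0]
  have key : ∀ l, l ∈ (Finset.Ioo 0 m).filter (fun l => m / Nat.gcd l m = b) →
      0 < m / b ∧ l = m / b * (l / (m / b)) ∧ m = m / b * b := by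
    intro l hl
    obtain ⟨h1, h2⟩ := Finset.mem_filter.1 hl
    obtain ⟨h3, h4⟩ := Finset.mem_Ioo.1 h1
    have hg : 0 < Nat.gcd l m := Nat.gcd_pos_of_pos_left m h3
    have hm : m = Nat.gcd l m * b := by
      rw [← h2]
      exact (Nat.mul_div_cancel' (Nat.gcd_dvd_right l m)).symm
    have hb : 0 < b := by
      rcases Nat.eq_zero_or_pos b with h | h
      · rw [h, mul_zero] at hm
        omega
      · exact h
    have hmb : m / b = Nat.gcd l m := Nat.div_eq_of_eq_mul_left hb hm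
    rw [hmb]
    exact ⟨hg, (Nat.mul_div_cancel' (Nat.gcd_dvd_left l m)).symm, hm⟩
  apply Finset.card_le_card_of_injOn (fun l => l / (m / b))
  · intro l hl
    obtain ⟨h1, h2, h3⟩ := key l hl
    obtain ⟨h4, h5⟩ := Finset.mem_Ioo.1 (Finset.mem_filter.1 hl).1
    have h6 : l / (m / b) ∈ Finset.Ioo 0 b := by
      rw [Finset.mem_Ioo]
      constructor
      · rcases Nat.eq_zero_or_pos (l / (m / b)) with h | h
        · rw [h, mul_zero] at h2
          omega
        · exact h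
      · by_contra hc
        push Not at hc
        have : m / b * b ≤ m / b * (l / (m / b)) := Nat.mul_le_mul_left _ hc
        omega
    exact h6
  · intro l hl l' hl' h
    obtain ⟨-, h2, -⟩ := key l hl
    obtain ⟨-, h2', -⟩ := key l' hl'
    have h : l / (m / b) = l' / (m / b) := h
    rw [h2, h2', h]

theorem tele (m : ℕ) (hm : 1 ≤ m) :
    ∑ b ∈ Finset.Icc 2 m, ((b : ℝ) - 1) / (b : ℝ) ^ 3 ≤ 1 / 2 - 1 / ((m : ℝ) + 1) := by
  induction m, hm using Nat.le_induction with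
  | base => norm_num
  | succ m hm ih =>
    rw [Finset.sum_Icc_succ_top (by omega)]
    push_cast
    have hm' : (1 : ℝ) ≤ m := by exact_mod_cast hm
    have h1 : ((m : ℝ) + 1 - 1) / ((m : ℝ) + 1) ^ 3 ≤ 1 / ((m : ℝ) + 1) - 1 / ((m : ℝ) + 1 + 1) := by
      rw [div_sub_div _ _ (by positivity) (by positivity), div_le_div_iff₀ (by positivity)
        (by positivity)]
      nlinarith [pow_pos (show (0 : ℝ) < (m : ℝ) + 1 by positivity) 2]
    linarith

theorem pf_NTB : T_NTB := by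
  intro m k hm hk
  have hm0 : (0 : ℝ) < m := by exact_mod_cast hm
  have h1 : ∀ l ∈ Finset.Ioo 0 m, (5 / 4 * (Nat.gcd l m : ℝ) / m) ^ k ≤
      125 / 64 * (1 / ((m / Nat.gcd l m : ℕ) : ℝ) ^ 3) ∧
      2 ≤ m / Nat.gcd l m ∧ m / Nat.gcd l m ≤ m := by
    intro l hl
    obtain ⟨h3, h4⟩ := Finset.mem_Ioo.1 hl
    have hg : 0 < Nat.gcd l m := Nat.gcd_pos_of_pos_left m h3
    obtain ⟨b, hb⟩ : ∃ b, b = m / Nat.gcd l m := ⟨_, rfl⟩
    have hmb : m = Nat.gcd l m * b := by
      rw [hb]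
      exact (Nat.mul_div_cancel' (Nat.gcd_dvd_right l m)).symm
    have hgl : Nat.gcd l m ≤ l := Nat.le_of_dvd h3 (Nat.gcd_dvd_left l m)
    have hb2 : 2 ≤ b := by
      by_contra hc
      push Not at hc
      have : Nat.gcd l m * b ≤ Nat.gcd l m * 1 := Nat.mul_le_mul_left _ (by omega)
      omega
    rw [← hb]
    refine ⟨?_, hb2, ?_⟩
    · have hb0 : (2 : ℝ) ≤ b := by exact_mod_cast hb2
      have hgR : (0 : ℝ) < (Nat.gcd l m : ℝ) := by exact_mod_cast hg
      have e : 5 / 4 * (Nat.gcd l m : ℝ) / m = 5 / (4 * b) := by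
        have : (m : ℝ) = (Nat.gcd l m : ℝ) * b := by exact_mod_cast hmb
        rw [this]
        field_simp
      rw [e]
      have h5 : 5 / (4 * (b : ℝ)) ≤ 1 := by
        rw [div_le_one (by positivity)]
        linarith
      refine (pow_le_pow_of_le_one (by positivity) h5 hk).trans (le_of_eq ?_)
      field_simp
      norm_num
    · rw [hb]
      exact Nat.div_le_self _ _
  calc ∑ l ∈ Finset.Ioo 0 m, (5 / 4 * (Nat.gcd l m : ℝ) / m) ^ k
      ≤ ∑ l ∈ Finset.Ioo 0 m, 125 / 64 * (1 / ((m / Nat.gcd l m : ℕ) : ℝ) ^ 3) :=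
        Finset.sum_le_sum fun l hl => (h1 l hl).1
    _ = 125 / 64 * ∑ l ∈ Finset.Ioo 0 m, 1 / ((m / Nat.gcd l m : ℕ) : ℝ) ^ 3 := by
        rw [Finset.mul_sum]
    _ = 125 / 64 * ∑ b ∈ Finset.Icc 2 m, ∑ l ∈ Finset.Ioo 0 m with m / Nat.gcd l m = b,
          1 / ((m / Nat.gcd l m : ℕ) : ℝ) ^ 3 := by
        rw [Finset.sum_fiberwise_of_maps_to (g := fun l => m / Nat.gcd l m)]
        intro l hl
        rw [Finset.mem_Icc]
        exact (h1 l hl).2
    _ ≤ 125 / 64 * ∑ b ∈ Finset.Icc 2 m, ((b : ℝ) - 1) / (b : ℝ) ^ 3 := by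
        apply mul_le_mul_of_nonneg_left _ (by norm_num)
        apply Finset.sum_le_sum
        intro b hb
        have hb2 : 2 ≤ b := (Finset.mem_Icc.1 hb).1
        have h6 : ∑ l ∈ Finset.Ioo 0 m with m / Nat.gcd l m = b,
            1 / ((m / Nat.gcd l m : ℕ) : ℝ) ^ 3 = ∑ l ∈ Finset.Ioo 0 m with
              m / Nat.gcd l m = b, 1 / (b : ℝ) ^ 3 := by
          refine Finset.sum_congr rfl fun l hl => ?_
          rw [(Finset.mem_filter.1 hl).2]
        rw [h6, Finset.sum_const, nsmul_eq_mul, mul_one_div]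
        apply div_le_div_of_nonneg_right _ (by positivity)
        have h7 := fiber_card m b
        have h8 : (((Finset.Ioo 0 m).filter fun l => m / Nat.gcd l m = b).card : ℝ) ≤
            ((b - 1 : ℕ) : ℝ) := by exact_mod_cast h7
        rwa [Nat.cast_sub (by omega), Nat.cast_one] at h8
    _ ≤ 125 / 64 * (1 / 2 - 1 / ((m : ℝ) + 1)) :=
        mul_le_mul_of_nonneg_left (tele m hm) (by norm_num)
    _ ≤ 125 / 128 := by
        have : (0 : ℝ) ≤ 1 / ((m : ℝ) + 1) := by positivity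
        linarith

end Pool.Agent.H78.TSC
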