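import Pool.Agent.H91.TC.Basic

/-! Row CVB of the board tsc: small bumps are `C²`-close to the identity. -/

set_option autoImplicit false

open Set Function Topology Metric Filter
open scoped Manifold

namespace Pool.Agent.H78.TSC

open Pool.Agent.H88.CL Pool.Agent.H88.CM Pool.Agent.H91.TC

theorem rep_c2 {n : ℕ} {M : Type} [TopologicalSpace M] [ChartedSpace (E n) M] {φ ψ : Ch n M}
    (hφ : φ ∈ MA n M) (hψ : ψ ∈ MA n M) {w : E n} (hw : w ∈ φ.target)
    (hgw : φ.symm w ∈ ψ.source) : ContDiffAt ℝ 2 (rep φ ψ (id : M → M)) w := by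
  rw [← contMDiffAt_iff_contDiffAt]
  have h1 : ContMDiffAt 𝓘(ℝ, E n) 𝓘(ℝ, E n) 2 φ.symm w :=
    contMDiffAt_symm_of_mem_maximalAtlas hφ hw
  have h3 : ContMDiffAt 𝓘(ℝ, E n) 𝓘(ℝ, E n) 2 ψ (φ.symm w) :=
    contMDiffAt_of_mem_maximalAtlas hψ hgw
  exact h3.comp w h1

/-- the jet of `id + u` -/
theorem jet_add {n : ℕ} {u : E n → E n} (hu : ContDiff ℝ 2 u) (w : E n) :
    jet (fun v => v + u v) w =
      (w + u w, ContinuousLinearMap.id ℝ (E n) + fderiv ℝ u w, fderiv ℝ (fderiv ℝ u) w) := by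
  have hd : ∀ v, HasFDerivAt (fun v => v + u v) (ContinuousLinearMap.id ℝ (E n) + fderiv ℝ u v) v :=
    fun v => (hasFDerivAt_id v).add (hu.differentiable (by norm_num) v).hasFDerivAt
  have h1 : fderiv ℝ (fun v => v + u v) = fun v => ContinuousLinearMap.id ℝ (E n) + fderiv ℝ u v :=
    funext fun v => (hd v).fderiv
  unfold jet
  rw [h1]
  refine Prod.ext rfl (Prod.ext rfl ?_)
  change fderiv ℝ (fun v => ContinuousLinearMap.id ℝ (E n) + fderiv ℝ u v) w =
    fderiv ℝ (fderiv ℝ u) w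
  exact fderiv_const_add _

theorem jet_id {n : ℕ} (w : E n) :
    jet (id : E n → E n) w = (w, ContinuousLinearMap.id ℝ (E n), 0) := by
  have h1 : fderiv ℝ (id : E n → E n) = fun _ => ContinuousLinearMap.id ℝ (E n) :=
    funext fun v => fderiv_id
  unfold jet
  rw [h1]
  refine Prod.ext rfl (Prod.ext rfl ?_)
  exact fderiv_const_apply _

theorem bp_second {n : ℕ} {K : Set (E n)} {t : ℝ} {u : E n → E n} (h : Bp n K t t t u) (w : E n) :
    ‖fderiv ℝ (fderiv ℝ u) w‖ ≤ t := by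
  have ht : 0 ≤ t := (norm_nonneg _).trans (h.s w)
  have h1 : LipschitzWith ⟨t, ht⟩ (fderiv ℝ u) := LipschitzWith.of_dist_le_mul fun v v' => by
    rw [dist_eq_norm, dist_eq_norm]
    exact h.g v v'
  exact norm_fderiv_le_of_lipschitz ℝ h1

/-- the jets of small bumps -/
theorem jet_bump {n : ℕ} {ι : Type} {l : Filter ι} {K : Set (E n)} {t : ι → ℝ}
    {u : ι → E n → E n} {w : ι → E n} {w₀ : E n} (ht : Tendsto t l (𝓝 0))
    (hu : ∀ i, Bp n K (t i) (t i) (t i) (u i)) (hw : Tendsto w l (𝓝 w₀)) :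
    Tendsto (fun i => jet (fun v => v + u i v) (w i)) l (𝓝 (jet (id : E n → E n) w₀)) := by
  rw [jet_id]
  have h0 : (fun i => jet (fun v => v + u i v) (w i)) = fun i => (w i + u i (w i),
      ContinuousLinearMap.id ℝ (E n) + fderiv ℝ (u i) (w i), fderiv ℝ (fderiv ℝ (u i)) (w i)) :=
    funext fun i => jet_add (hu i).c2 _
  rw [h0]
  have h1 : Tendsto (fun i => u i (w i)) l (𝓝 0) := squeeze_zero_norm (fun i => (hu i).s _) ht
  have h2 : Tendsto (fun i => fderiv ℝ (u i) (w i)) l (𝓝 0) :=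
    squeeze_zero_norm (fun i => (hu i).b _) ht
  have h3 : Tendsto (fun i => fderiv ℝ (fderiv ℝ (u i)) (w i)) l (𝓝 0) :=
    (tendsto_zero_iff_norm_tendsto_zero (E := E n →L[ℝ] E n →L[ℝ] E n)).2
      (squeeze_zero (fun _ => norm_nonneg _) (fun i => bp_second (hu i) _) ht)
  have h4 := hw.add h1
  have h5 := (tendsto_const_nhds (x := ContinuousLinearMap.id ℝ (E n)) (f := l)).add h2
  rw [add_zero] at h4 h5
  exact h4.prodMk_nhds (h5.prodMk_nhds h3)

theorem pf_CVB (hI : T_INV) (hB : T_BMD) : T_CVB := by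
  intro n M _ _ _ _ κ K hκ hK hKt U t ht ht0 hU
  have hbmd : ∀ i, (∃ g' : M → M, DM n (bmp κ (U i)) g') ∧
      (∀ y ∈ κ.source, bmp κ (U i) y ∈ κ.source ∧ κ (bmp κ (U i) y) = κ y + U i (κ y)) ∧
      ∀ y, bmp κ (U i) y ≠ y → y ∈ κ.source ∧ U i (κ y) ≠ 0 := by
    intro i
    obtain ⟨u', hu', h1, h2⟩ := hI n K (t i) (t i) (t i) (U i) (hU i) (ht i)
    obtain ⟨h3, h4, h5⟩ := hB n M κ K (t i) (t i) (t i) (t i) (2 * t i) (8 * t i) (U i) u' hκ hK
      hKt (hU i) hu' h1 h2
    exact ⟨⟨_, h3⟩, h4, h5⟩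
  set S : Set M := κ.symm '' K with hS
  have hSc : IsClosed S := (hK.image_of_continuousOn (κ.continuousOn_symm.mono hKt)).isClosed
  have hSo : ∀ i, ∀ y, y ∉ S → bmp κ (U i) y = y := by
    intro i y hy
    by_contra hc
    obtain ⟨h1, h2⟩ := (hbmd i).2.2 y hc
    exact hy ⟨κ y, (hU i).sup _ h2, κ.left_inv h1⟩
  have hSs : S ⊆ κ.source := by
    rintro _ ⟨v, hv, rfl⟩
    exact κ.map_target (hKt hv)
  have hform : ∀ i, ∀ y ∈ κ.source, bmp κ (U i) y = κ.symm (κ y + U i (κ y)) := by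
    intro i y hy
    obtain ⟨h1, h2⟩ := (hbmd i).2.1 y hy
    rw [← h2, κ.left_inv h1]
  refine ⟨fun i => ?_, ⟨fun y => ?_, fun y φ ψ hφ hψ hy hy' => ?_⟩⟩
  · obtain ⟨g', h⟩ := (hbmd i).1
    exact h.c
  · by_cases hyS : y ∈ S
    · have hys := hSs hyS
      have h1 : Tendsto (fun p : ℕ × M => κ p.2) (atTop ×ˢ 𝓝 y) (𝓝 (κ y)) :=
        (κ.continuousAt hys).tendsto.comp tendsto_snd
      have h2 : Tendsto (fun p : ℕ × M => U p.1 (κ p.2)) (atTop ×ˢ 𝓝 y) (𝓝 0) :=
        squeeze_zero_norm (fun p => (hU p.1).s _) (ht0.comp tendsto_fst)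
      have h3 := h1.add h2
      rw [add_zero] at h3
      have h4 : Tendsto (fun p : ℕ × M => κ.symm (κ p.2 + U p.1 (κ p.2))) (atTop ×ˢ 𝓝 y)
          (𝓝 (κ.symm (κ y))) :=
        (κ.symm.continuousAt (κ.map_source hys)).tendsto.comp h3
      rw [κ.left_inv hys] at h4
      refine h4.congr' ?_
      have h5 : ∀ᶠ p : ℕ × M in atTop ×ˢ 𝓝 y, p.2 ∈ κ.source :=
        tendsto_snd.eventually (κ.open_source.mem_nhds hys)
      filter_upwards [h5] with p hp
      exact (hform p.1 p.2 hp).symm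
    · have h5 : ∀ᶠ p : ℕ × M in atTop ×ˢ 𝓝 y, p.2 ∈ Sᶜ :=
        tendsto_snd.eventually (hSc.isOpen_compl.mem_nhds hyS)
      refine (tendsto_snd (f := (atTop : Filter ℕ)) (g := 𝓝 y)).congr' ?_
      filter_upwards [h5] with p hp
      exact (hSo p.1 p.2 hp).symm
  · have hφy : φ y ∈ φ.target := φ.map_source hy
    have hsymm : φ.symm (φ y) = y := φ.left_inv hy
    by_cases hyS : y ∈ S
    · have hys := hSs hyS
      -- the maps between the charts
      have hF : ContDiffAt ℝ 2 (rep φ κ (id : M → M)) (φ y) :=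
        rep_c2 hφ hκ hφy (by rw [hsymm]; exact hys)
      have hFy : rep φ κ (id : M → M) (φ y) = κ y := by
        change κ (id (φ.symm (φ y))) = κ y
        rw [hsymm]
        rfl
      have hH : ContDiffAt ℝ 2 (rep κ ψ (id : M → M)) (κ y) :=
        rep_c2 hκ hψ (κ.map_source hys) (by rw [κ.left_inv hys]; exact hy')
      set l : Filter (ℕ × E n) := atTop ×ˢ 𝓝 (φ y) with hl
      have htl : Tendsto (fun p : ℕ × E n => t p.1) l (𝓝 0) := ht0.comp tendsto_fst
      have hsnd : Tendsto (fun p : ℕ × E n => p.2) l (𝓝 (φ y)) := tendsto_snd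
      have hA : Tendsto (fun p : ℕ × E n => jet (rep φ κ (id : M → M)) p.2) l
          (𝓝 (jet (rep φ κ (id : M → M)) (φ y))) := (jet_continuousAt hF).tendsto.comp hsnd
      have hFt : Tendsto (fun p : ℕ × E n => rep φ κ (id : M → M) p.2) l (𝓝 (κ y)) := by
        have := hF.continuousAt.tendsto.comp hsnd
        rwa [hFy] at this
      have hBt : Tendsto (fun p : ℕ × E n => jet (fun v => v + U p.1 v)
          (rep φ κ (id : M → M) p.2)) l (𝓝 (jet (id : E n → E n) (κ y))) :=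
        jet_bump htl (fun p => hU p.1) hFt
      have hF' : ∀ᶠ p : ℕ × E n in l, ContDiffAt ℝ 2 (rep φ κ (id : M → M)) p.2 :=
        hsnd.eventually (hF.eventually (by simp))
      have hG' : ∀ᶠ p : ℕ × E n in l, ContDiffAt ℝ 2 (fun v => v + U p.1 v)
          (rep φ κ (id : M → M) p.2) :=
        Eventually.of_forall fun p => (contDiff_id.add (hU p.1).c2).contDiffAt
      have hC := jet_tendsto_comp (F := fun _ : ℕ × E n => rep φ κ (id : M → M))
        (G := fun p : ℕ × E n => fun v => v + U p.1 v) (v := fun p => p.2) hF' hG' hA hBt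
      have hGt : Tendsto (fun p : ℕ × E n => ((fun v => v + U p.1 v) ∘ rep φ κ (id : M → M)) p.2) l
          (𝓝 (κ y)) := by
        have h2 : Tendsto (fun p : ℕ × E n => U p.1 (rep φ κ (id : M → M) p.2)) l (𝓝 0) :=
          squeeze_zero_norm (fun p => (hU p.1).s _) htl
        have h3 := hFt.add h2
        rwa [add_zero] at h3
      have hFG' : ∀ᶠ p : ℕ × E n in l,
          ContDiffAt ℝ 2 ((fun v => v + U p.1 v) ∘ rep φ κ (id : M → M)) p.2 := by
        filter_upwards [hF', hG'] with p h1 h2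
        exact h2.comp p.2 h1
      have hH' : ∀ᶠ p : ℕ × E n in l, ContDiffAt ℝ 2 (rep κ ψ (id : M → M))
          (((fun v => v + U p.1 v) ∘ rep φ κ (id : M → M)) p.2) :=
        hGt.eventually (hH.eventually (by simp))
      have hHt : Tendsto (fun p : ℕ × E n => jet (rep κ ψ (id : M → M))
          (((fun v => v + U p.1 v) ∘ rep φ κ (id : M → M)) p.2)) l
          (𝓝 (jet (rep κ ψ (id : M → M)) (κ y))) := (jet_continuousAt hH).tendsto.comp hGt
      have hD := jet_tendsto_comp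
        (F := fun p : ℕ × E n => (fun v => v + U p.1 v) ∘ rep φ κ (id : M → M))
        (G := fun _ : ℕ × E n => rep κ ψ (id : M → M)) (v := fun p => p.2) hFG' hH' hC hHt
      -- the limit
      have hlim : jet (rep φ ψ (id : M → M)) (φ y) = jc (jet (rep κ ψ (id : M → M)) (κ y))
          (jc (jet (id : E n → E n) (κ y)) (jet (rep φ κ (id : M → M)) (φ y))) := by
        have h1 : jet ((id : E n → E n) ∘ rep φ κ (id : M → M)) (φ y) =
            jc (jet (id : E n → E n) (κ y)) (jet (rep φ κ (id : M → M)) (φ y)) := by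
          rw [jet_comp hF contDiff_id.contDiffAt, hFy]
        have h2 : jet (rep κ ψ (id : M → M) ∘ ((id : E n → E n) ∘ rep φ κ (id : M → M))) (φ y) =
            jc (jet (rep κ ψ (id : M → M)) (κ y))
              (jet ((id : E n → E n) ∘ rep φ κ (id : M → M)) (φ y)) := by
          rw [jet_comp (F := (id : E n → E n) ∘ rep φ κ (id : M → M)) (by exact hF)
            (by
              change ContDiffAt ℝ 2 _ (rep φ κ (id : M → M) (φ y))
              rw [hFy]
              exact hH)]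
          change jc (jet _ (rep φ κ (id : M → M) (φ y))) _ = _
          rw [hFy]
        rw [← h1, ← h2]
        apply jet_congr
        have h3 : ContinuousAt (fun v => φ.symm v) (φ y) := φ.symm.continuousAt hφy
        have h4 : ∀ᶠ v in 𝓝 (φ y), φ.symm v ∈ κ.source := by
          apply h3.eventually
          change ∀ᶠ z in 𝓝 (φ.symm (φ y)), z ∈ κ.source
          rw [hsymm]
          exact κ.open_source.mem_nhds hys
        filter_upwards [h4] with v hv
        change ψ (φ.symm v) = ψ (κ.symm (κ (φ.symm v)))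
        rw [κ.left_inv hv]
      rw [hlim]
      refine hD.congr' ?_
      have h3 : ContinuousAt (fun v => φ.symm v) (φ y) := φ.symm.continuousAt hφy
      have h4 : ∀ᶠ v in 𝓝 (φ y), φ.symm v ∈ κ.source := by
        apply h3.eventually
        change ∀ᶠ z in 𝓝 (φ.symm (φ y)), z ∈ κ.source
        rw [hsymm]
        exact κ.open_source.mem_nhds hys
      have h5 : ∀ᶠ v in 𝓝 (φ y), ∀ᶠ v' in 𝓝 v, φ.symm v' ∈ κ.source :=
        eventually_eventually_nhds.2 h4
      filter_upwards [hsnd.eventually h5] with p hp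
      apply jet_congr
      filter_upwards [hp] with v hv
      change ψ (κ.symm (κ (φ.symm v) + U p.1 (κ (φ.symm v)))) = ψ (bmp κ (U p.1) (φ.symm v))
      rw [hform p.1 _ hv]
    · have hI2 : ContDiffAt ℝ 2 (rep φ ψ (id : M → M)) (φ y) :=
        rep_c2 hφ hψ hφy (by rw [hsymm]; exact hy')
      have hsnd : Tendsto (fun p : ℕ × E n => p.2) (atTop ×ˢ 𝓝 (φ y)) (𝓝 (φ y)) := tendsto_snd
      have hA : Tendsto (fun p : ℕ × E n => jet (rep φ ψ (id : M → M)) p.2) (atTop ×ˢ 𝓝 (φ y))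
          (𝓝 (jet (rep φ ψ (id : M → M)) (φ y))) := (jet_continuousAt hI2).tendsto.comp hsnd
      refine hA.congr' ?_
      have h3 : ContinuousAt (fun v => φ.symm v) (φ y) := φ.symm.continuousAt hφy
      have h4 : ∀ᶠ v in 𝓝 (φ y), φ.symm v ∈ Sᶜ := by
        apply h3.eventually
        change ∀ᶠ z in 𝓝 (φ.symm (φ y)), z ∈ Sᶜ
        rw [hsymm]
        exact hSc.isOpen_compl.mem_nhds hyS
      have h5 : ∀ᶠ v in 𝓝 (φ y), ∀ᶠ v' in 𝓝 v, φ.symm v' ∈ Sᶜ :=
        eventually_eventually_nhds.2 h4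
      filter_upwards [hsnd.eventually h5] with p hp
      apply jet_congr
      filter_upwards [hp] with v hv
      change ψ (φ.symm v) = ψ (bmp κ (U p.1) (φ.symm v))
      rw [hSo p.1 _ hv]

end Pool.Agent.H78.TSC
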